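import Pool.Agent.Helper41.LD2.Defs

/-!
# Project LD2, block NB2: windows without cell boundaries, for the powers
-/

set_option autoImplicit false

namespace Pool.Agent.Helper8.LD2

open Pool.Agent.Helper41.LD2 Set MeasureTheory Filter Topology

variable {A₀ x₁ x₂ : ℝ} {c : ℕ → ℝ} {n₀ : ℕ}

/-- the number of the windows with a boundary at one time -/
lemma card_mono {U : ℝ → ℝ} {a ℓ : ℝ} (hℓ : 0 < ℓ) (hU : MonotoneOn U (Icc a (a + ℓ))) (K : ℕ) {B : ℕ} (hB : 1 ≤ B) :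
    (((Finset.range B).filter fun b : ℕ => ⌊(2 : ℝ) ^ K * U (a + b * (ℓ / B))⌋ <
      ⌊(2 : ℝ) ^ K * U (a + (b + 1 : ℕ) * (ℓ / B))⌋).card : ℝ) ≤ 2 ^ K * (U (a + ℓ) - U a) + 1 := by
  have hB0 : (0 : ℝ) < B := by exact_mod_cast hB
  have hδ : 0 < ℓ / B := by positivity
  have hmem : ∀ b : ℕ, b ≤ B → a + b * (ℓ / B) ∈ Icc a (a + ℓ) := by
    intro b hb
    have h1 : (b : ℝ) ≤ B := by exact_mod_cast hb
    have h2 : (b : ℝ) * (ℓ / B) ≤ B * (ℓ / B) := mul_le_mul_of_nonneg_right h1 hδ.le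
    rw [mul_div_cancel₀ _ hB0.ne'] at h2
    have h3 : 0 ≤ (b : ℝ) * (ℓ / B) := by positivity
    constructor <;> linarith
  set v : ℕ → ℤ := fun b => ⌊(2 : ℝ) ^ K * U (a + b * (ℓ / B))⌋ with hv
  have hmono : ∀ b, b < B → v b ≤ v (b + 1) := by
    intro b hb
    refine Int.floor_le_floor (mul_le_mul_of_nonneg_left (hU (hmem b hb.le) (hmem (b + 1) hb) ?_) (by positivity))
    push_cast
    nlinarith
  have h1 : (((Finset.range B).filter fun b : ℕ => v b < v (b + 1)).card : ℤ) ≤ v B - v 0 := by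
    calc (((Finset.range B).filter fun b : ℕ => v b < v (b + 1)).card : ℤ)
        = ∑ b ∈ (Finset.range B).filter fun b : ℕ => v b < v (b + 1), (1 : ℤ) := by simp
      _ ≤ ∑ b ∈ (Finset.range B).filter fun b : ℕ => v b < v (b + 1), (v (b + 1) - v b) := by
          refine Finset.sum_le_sum fun b hb => ?_
          have := (Finset.mem_filter.1 hb).2
          omega
      _ ≤ ∑ b ∈ Finset.range B, (v (b + 1) - v b) := by
          refine Finset.sum_le_sum_of_subset_of_nonneg (Finset.filter_subset _ _) fun b hb _ => ?_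
          have := hmono b (Finset.mem_range.1 hb)
          omega
      _ = v B - v 0 := Finset.sum_range_sub v B
  have h2 : (v B : ℝ) ≤ 2 ^ K * U (a + ℓ) := by
    have e : a + (B : ℝ) * (ℓ / B) = a + ℓ := by
      rw [mul_div_cancel₀ _ hB0.ne']
    simp only [hv]
    rw [e]
    exact Int.floor_le _
  have h3 : (2 : ℝ) ^ K * U a - 1 ≤ v 0 := by
    have := Int.lt_floor_add_one ((2 : ℝ) ^ K * U (a + ((0 : ℕ) : ℝ) * (ℓ / B)))
    simp only [hv]
    rw [Nat.cast_zero, zero_mul, add_zero] at this ⊢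
    linarith
  have h4 : (((Finset.range B).filter fun b : ℕ => v b < v (b + 1)).card : ℝ) ≤ v B - v 0 := by exact_mod_cast h1
  calc _ ≤ (v B : ℝ) - v 0 := h4
    _ ≤ _ := by linarith

lemma pow_sub_le {x y : ℝ} (hx : 0 ≤ x) (hxy : x ≤ y) (j : ℕ) : y ^ (j + 1) - x ^ (j + 1) ≤ (j + 1) * y ^ j * (y - x) := by
  induction j with
  | zero => simp
  | succ j ih =>
    have hy : 0 ≤ y := hx.trans hxy
    have h1 : y * (y ^ (j + 1) - x ^ (j + 1)) ≤ y * ((j + 1) * y ^ j * (y - x)) := mul_le_mul_of_nonneg_left ih hy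
    have h2 : x ^ (j + 1) * (y - x) ≤ y ^ (j + 1) * (y - x) :=
      mul_le_mul_of_nonneg_right (pow_le_pow_left₀ hx hxy _) (by linarith)
    have h3 : y ^ (j + 1 + 1) - x ^ (j + 1 + 1) = y * (y ^ (j + 1) - x ^ (j + 1)) + x ^ (j + 1) * (y - x) := by ring
    have h4 : ((j + 1 : ℕ) + 1 : ℝ) * y ^ (j + 1) * (y - x) = y * ((j + 1) * y ^ j * (y - x)) + y ^ (j + 1) * (y - x) := by
      push_cast
      ring
    rw [h3, h4]
    linarith

lemma pow_add_le {a ℓ : ℝ} (ha : 1 ≤ a) (hℓ : 0 ≤ ℓ) {j : ℕ} (h : (j : ℝ) * ℓ ≤ 1 / 2) : (a + ℓ) ^ j ≤ 2 * a ^ j := by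
  have ha0 : 0 < a := by linarith
  have h1 : a + ℓ ≤ a * Real.exp ℓ := by
    have h2 := Real.add_one_le_exp ℓ
    have h3 : a * (ℓ + 1) ≤ a * Real.exp ℓ := mul_le_mul_of_nonneg_left h2 ha0.le
    nlinarith
  have h2 : (a + ℓ) ^ j ≤ (a * Real.exp ℓ) ^ j := pow_le_pow_left₀ (by linarith) h1 j
  have h3 : Real.exp ℓ ^ j ≤ 2 := by
    rw [← Real.exp_nat_mul]
    have h4 : Real.exp (1 / 2) ≤ 2 := by
      have h5 : Real.exp (1 / 2) ^ 2 = Real.exp 1 := by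
        rw [← Real.exp_nat_mul]
        norm_num
      have h6 := Real.exp_one_lt_d9
      nlinarith [Real.exp_pos (1 / 2)]
    exact (Real.exp_le_exp.2 h).trans h4
  calc (a + ℓ) ^ j ≤ (a * Real.exp ℓ) ^ j := h2
    _ = a ^ j * Real.exp ℓ ^ j := mul_pow _ _ _
    _ ≤ a ^ j * 2 := mul_le_mul_of_nonneg_left h3 (by positivity)
    _ = _ := mul_comm _ _

lemma vp_ratio {a : ℝ} (hA : 0 < A₀) (h1 : 1 < x₁) (ha : x₁ ≤ a) {j m : ℕ} (hj : j ≤ m) :
    vp A₀ j a ≤ vp A₀ m a * (x₁ ^ j / x₁ ^ m) := by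
  have hx0 : 0 < x₁ := by linarith
  have ha0 : 0 < a := by linarith
  rw [mul_div_assoc', le_div_iff₀ (by positivity)]
  unfold vp
  have h2 : a ^ j * x₁ ^ m ≤ a ^ m * x₁ ^ j := by
    have e1 : x₁ ^ m = x₁ ^ j * x₁ ^ (m - j) := by
      rw [← pow_add]
      congr 1
      omega
    have e2 : a ^ m = a ^ j * a ^ (m - j) := by
      rw [← pow_add]
      congr 1
      omega
    have h3 : x₁ ^ (m - j) ≤ a ^ (m - j) := pow_le_pow_left₀ hx0.le ha _
    rw [e1, e2]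
    calc a ^ j * (x₁ ^ j * x₁ ^ (m - j)) = a ^ j * x₁ ^ j * x₁ ^ (m - j) := by ring
      _ ≤ a ^ j * x₁ ^ j * a ^ (m - j) := mul_le_mul_of_nonneg_left h3 (by positivity)
      _ = _ := by ring
  have h3 : (j : ℝ) + 1 ≤ m + 1 := by
    have : (j : ℝ) ≤ m := by exact_mod_cast hj
    linarith
  calc A₀ * (j + 1) * a ^ j * x₁ ^ m = A₀ * ((j + 1) * (a ^ j * x₁ ^ m)) := by ring
    _ ≤ A₀ * ((m + 1) * (a ^ m * x₁ ^ j)) := by gcongr
    _ = _ := by ring

open Classical in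
theorem nb_count_pw {K n L r Q₀ : ℕ} {ε : ℝ} (P : PPar A₀ x₁ x₂ n₀ K n L r Q₀ ε) {a ℓ : ℝ} (ha : x₁ ≤ a) (hb : a + ℓ ≤ x₂)
    (hw : PWin A₀ n a ℓ) {B : ℕ} (hBdef : B = ⌊vp A₀ (n + L) a * ℓ⌋₊) {r' K' : ℕ} (hr' : r ≤ r') (hK' : K' ≤ K + 1) :
    (((Finset.range B).filter fun b : ℕ => ¬ NB (pw A₀ c n₀) (n + L) r' K' (a + b * (ℓ / B)) (ℓ / B)).card : ℝ) ≤
      (1 / 2) ^ (4 * K + 2) * B := by
  have hA := P.hA
  have h1 := P.h1
  have hx0 : 0 < x₁ := by linarith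
  have hx1 : 0 < x₁ - 1 := by linarith
  have ha1 : 1 < a := by linarith
  have ha0 : 0 < a := by linarith
  have hvn : 0 < vp A₀ n a := by
    unfold vp
    positivity
  have hℓ : 0 < ℓ := by
    by_contra h
    push Not at h
    have := mul_nonpos_of_nonneg_of_nonpos hvn.le h
    linarith [hw.1]
  -- the number of the children
  set y := vp A₀ (n + L) a * ℓ with hy
  have hyL : x₁ ^ L ≤ y := by
    have h2 := vp_ratio (A₀ := A₀) hA h1 ha (Nat.le_add_right n L)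
    have h3 : x₁ ^ n / x₁ ^ (n + L) = 1 / x₁ ^ L := by
      rw [pow_add]
      field_simp
    rw [h3] at h2
    have h4 : vp A₀ n a * x₁ ^ L ≤ vp A₀ (n + L) a := by
      rw [mul_one_div, le_div_iff₀ (by positivity)] at h2
      exact h2
    calc x₁ ^ L = 1 * x₁ ^ L := (one_mul _).symm
      _ ≤ (vp A₀ n a * ℓ) * x₁ ^ L := mul_le_mul_of_nonneg_right hw.1 (by positivity)
      _ = (vp A₀ n a * x₁ ^ L) * ℓ := by ring
      _ ≤ _ := mul_le_mul_of_nonneg_right h4 hℓ.le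
  set p : ℝ := 2 ^ K with hp
  have hp2 : 2 ≤ p := by
    calc (2 : ℝ) = 2 ^ 1 := (pow_one 2).symm
      _ ≤ 2 ^ K := pow_le_pow_right₀ (by norm_num) P.hK
  have hp0 : 0 < p := by linarith
  have hrp : p ^ 12 ≤ x₁ ^ r := by
    have h2 := P.hr
    have e : (2 : ℝ) ^ (12 * K) = p ^ 12 := by
      rw [hp, ← pow_mul, mul_comm]
    rw [← e]
    exact h2
  have hLp : p ^ 36 ≤ x₁ ^ L := by
    calc p ^ 36 = (p ^ 12) ^ 3 := by ring
      _ ≤ (x₁ ^ r) ^ 3 := pow_le_pow_left₀ (by positivity) hrp 3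
      _ = x₁ ^ (3 * r) := by rw [← pow_mul, mul_comm]
      _ ≤ x₁ ^ L := pow_le_pow_right₀ h1.le P.hL
  have hp36 : (1 : ℝ) ≤ p ^ 36 := one_le_pow₀ (by linarith)
  have hy1 : 1 ≤ y := by linarith
  have hB1 : 1 ≤ B := by
    rw [hBdef, Nat.one_le_floor_iff]
    exact hy1
  have hB1' : (1 : ℝ) ≤ B := by exact_mod_cast hB1
  have hB0 : (0 : ℝ) < B := by linarith
  have hyB : y ≤ 2 * B := by
    have h2 := Nat.lt_floor_add_one y
    rw [← hBdef] at h2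
    linarith
  -- the windows are short
  have hm : (n : ℝ) + L + r ≤ p ^ 2 := by
    have h2 : ((n + L + r : ℕ) : ℝ) ≤ ((2 ^ (2 * K) : ℕ) : ℝ) := by exact_mod_cast P.hn
    push_cast at h2
    have e : (2 : ℝ) ^ (2 * K) = p ^ 2 := by rw [hp, ← pow_mul, mul_comm]
    rw [← e]
    exact h2
  have hshort : ∀ j : ℕ, j ≤ n + L → (j : ℝ) * ℓ ≤ 1 / 2 := by
    intro j hj
    have hj' : (j : ℝ) ≤ n + L := by exact_mod_cast hj
    have h2 : A₀ * x₁ ^ n * ℓ ≤ 2 := by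
      have h3 : A₀ * x₁ ^ n ≤ vp A₀ n a := by
        unfold vp
        have h4 : x₁ ^ n ≤ a ^ n := pow_le_pow_left₀ hx0.le ha n
        have h5 : (1 : ℝ) ≤ n + 1 := by
          have : (0 : ℝ) ≤ n := by positivity
          linarith
        calc A₀ * x₁ ^ n = A₀ * 1 * x₁ ^ n := by ring
          _ ≤ A₀ * (n + 1) * a ^ n := by gcongr
      exact (mul_le_mul_of_nonneg_right h3 hℓ.le).trans hw.2
    have h3 := P.hlin
    have hx2 : 1 ≤ x₂ ^ (L + r) := one_le_pow₀ (by linarith [P.h12])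
    have hp16 : (1 : ℝ) ≤ 2 ^ (16 * K) := one_le_pow₀ (by norm_num)
    set N : ℝ := (n : ℝ) + L + r + 1 with hN
    have hr0 : (0 : ℝ) ≤ r := by positivity
    have hn0 : (0 : ℝ) ≤ n := by positivity
    have hL0 : (0 : ℝ) ≤ L := by positivity
    have hN1 : 1 ≤ N := by linarith
    have h4 : 4 * N ^ 2 ≤ A₀ * x₁ ^ n := by
      refine le_trans ?_ h3
      calc 4 * N ^ 2 = 4 * N ^ 2 * 1 * 1 := by ring
        _ ≤ _ := by gcongr
    have h5 : 4 * N ^ 2 * ℓ ≤ 2 := (mul_le_mul_of_nonneg_right h4 hℓ.le).trans h2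
    have h6 : (j : ℝ) * ℓ ≤ N ^ 2 * ℓ := by
      refine mul_le_mul_of_nonneg_right ?_ hℓ.le
      nlinarith
    linarith
  -- the powers
  have hmono : ∀ j : ℕ, MonotoneOn (pw A₀ c n₀ j) (Icc a (a + ℓ)) := by
    intro j x hx z _ hxz
    unfold pw
    split_ifs
    · exact le_rfl
    · have h2 : x ^ (j + 1) ≤ z ^ (j + 1) := pow_le_pow_left₀ (by linarith [hx.1]) hxz _
      have := mul_le_mul_of_nonneg_left h2 hA.le
      linarith
  have hdiff : ∀ j : ℕ, j ≤ n + L → pw A₀ c n₀ j (a + ℓ) - pw A₀ c n₀ j a ≤ 4 * B * (x₁ ^ j / x₁ ^ (n + L)) := by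
    intro j hj
    have hnn : 0 ≤ 4 * (B : ℝ) * (x₁ ^ j / x₁ ^ (n + L)) := by positivity
    unfold pw
    split_ifs with hjn
    · linarith
    · have h2 := pow_sub_le (x := a) (y := a + ℓ) ha0.le (by linarith) j
      have h3 := pow_add_le ha1.le hℓ.le (hshort j hj)
      have h4 : A₀ * ((a + ℓ) ^ (j + 1) - a ^ (j + 1)) ≤ 2 * (vp A₀ j a * ℓ) := by
        unfold vp
        calc A₀ * ((a + ℓ) ^ (j + 1) - a ^ (j + 1)) ≤ A₀ * ((j + 1) * (a + ℓ) ^ j * (a + ℓ - a)) :=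
              mul_le_mul_of_nonneg_left h2 hA.le
          _ = A₀ * (j + 1) * ℓ * (a + ℓ) ^ j := by ring
          _ ≤ A₀ * (j + 1) * ℓ * (2 * a ^ j) := mul_le_mul_of_nonneg_left h3 (by positivity)
          _ = _ := by ring
      have h5 := vp_ratio (A₀ := A₀) hA h1 ha hj
      have h6 : vp A₀ j a * ℓ ≤ y * (x₁ ^ j / x₁ ^ (n + L)) := by
        calc vp A₀ j a * ℓ ≤ (vp A₀ (n + L) a * (x₁ ^ j / x₁ ^ (n + L))) * ℓ := mul_le_mul_of_nonneg_right h5 hℓ.le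
          _ = _ := by rw [hy]; ring
      have h7 : y * (x₁ ^ j / x₁ ^ (n + L)) ≤ 2 * B * (x₁ ^ j / x₁ ^ (n + L)) :=
        mul_le_mul_of_nonneg_right hyB (by positivity)
      linarith
  -- the union bound
  have hsub : ((Finset.range B).filter fun b : ℕ => ¬ NB (pw A₀ c n₀) (n + L) r' K' (a + b * (ℓ / B)) (ℓ / B)) ⊆
      (Finset.range (n + L - r')).biUnion fun j => (Finset.range B).filter fun b : ℕ =>
        ⌊(2 : ℝ) ^ K' * pw A₀ c n₀ j (a + b * (ℓ / B))⌋ < ⌊(2 : ℝ) ^ K' * pw A₀ c n₀ j (a + (b + 1 : ℕ) * (ℓ / B))⌋ := by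
    intro b hbm
    rw [Finset.mem_filter] at hbm
    obtain ⟨hb1, hb2⟩ := hbm
    unfold NB at hb2
    push Not at hb2
    obtain ⟨j, hj, x, hx, hne⟩ := hb2
    rw [Finset.mem_biUnion]
    refine ⟨j, Finset.mem_range.2 (by omega), Finset.mem_filter.2 ⟨hb1, ?_⟩⟩
    have h2K : (0 : ℝ) ≤ 2 ^ K' := by positivity
    have hbB : ((b + 1 : ℕ) : ℝ) ≤ B := by exact_mod_cast Finset.mem_range.1 hb1
    have hδ : 0 < ℓ / B := by positivity
    have h3 : a + ((b + 1 : ℕ) : ℝ) * (ℓ / B) = a + b * (ℓ / B) + ℓ / B := by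
      push_cast
      ring
    have h4 : ((b + 1 : ℕ) : ℝ) * (ℓ / B) ≤ ℓ := by
      have := mul_le_mul_of_nonneg_right hbB hδ.le
      rwa [mul_div_cancel₀ _ hB0.ne'] at this
    have h5 : 0 ≤ (b : ℝ) * (ℓ / B) := by positivity
    have hm1 : a + b * (ℓ / B) ∈ Icc a (a + ℓ) := by
      constructor <;> linarith
    have hm2 : x ∈ Icc a (a + ℓ) := by
      constructor
      · linarith [hx.1]
      · linarith [hx.2]
    have hm3 : a + ((b + 1 : ℕ) : ℝ) * (ℓ / B) ∈ Icc a (a + ℓ) := by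
      constructor
      · rw [h3]; linarith
      · linarith
    have h1' : ⌊(2 : ℝ) ^ K' * pw A₀ c n₀ j (a + b * (ℓ / B))⌋ ≤ ⌊(2 : ℝ) ^ K' * pw A₀ c n₀ j x⌋ :=
      Int.floor_le_floor (mul_le_mul_of_nonneg_left (hmono j hm1 hm2 hx.1) h2K)
    have h2' : ⌊(2 : ℝ) ^ K' * pw A₀ c n₀ j x⌋ ≤ ⌊(2 : ℝ) ^ K' * pw A₀ c n₀ j (a + (b + 1 : ℕ) * (ℓ / B))⌋ := by
      refine Int.floor_le_floor (mul_le_mul_of_nonneg_left (hmono j hm2 hm3 ?_) h2K)
      rw [h3]
      exact hx.2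
    exact (lt_of_le_of_ne h1' (Ne.symm hne)).trans_le h2'
  rcases Nat.lt_or_ge (n + L) r' with hrr | hrr
  · have h0 : n + L - r' = 0 := by omega
    rw [h0, Finset.range_zero, Finset.biUnion_empty, Finset.subset_empty] at hsub
    rw [hsub, Finset.card_empty, Nat.cast_zero]
    positivity
  have hcard : (((Finset.range B).filter fun b : ℕ => ¬ NB (pw A₀ c n₀) (n + L) r' K' (a + b * (ℓ / B)) (ℓ / B)).card : ℝ) ≤
      ∑ j ∈ Finset.range (n + L - r'), (2 ^ K' * (4 * B * (x₁ ^ j / x₁ ^ (n + L))) + 1) := by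
    have h2 := (Finset.card_le_card hsub).trans Finset.card_biUnion_le
    calc _ ≤ ((∑ j ∈ Finset.range (n + L - r'), ((Finset.range B).filter fun b : ℕ =>
        ⌊(2 : ℝ) ^ K' * pw A₀ c n₀ j (a + b * (ℓ / B))⌋ < ⌊(2 : ℝ) ^ K' * pw A₀ c n₀ j (a + (b + 1 : ℕ) * (ℓ / B))⌋).card : ℕ) : ℝ) := by
          exact_mod_cast h2
      _ ≤ _ := by
          rw [Nat.cast_sum]
          refine Finset.sum_le_sum fun j hj => ?_
          rw [Finset.mem_range] at hj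
          refine (card_mono hℓ (hmono j) K' hB1).trans ?_
          have h3 := mul_le_mul_of_nonneg_left (hdiff j (by omega)) (by positivity : (0 : ℝ) ≤ 2 ^ K')
          linarith
  refine hcard.trans ?_
  rw [Finset.sum_add_distrib]
  have hsum1 : ∑ j ∈ Finset.range (n + L - r'), (2 : ℝ) ^ K' * (4 * B * (x₁ ^ j / x₁ ^ (n + L))) ≤ 8 * B / p ^ 10 := by
    have e1 : ∑ j ∈ Finset.range (n + L - r'), (2 : ℝ) ^ K' * (4 * B * (x₁ ^ j / x₁ ^ (n + L))) =
        2 ^ K' * (4 * B) * (((x₁ ^ (n + L - r') - 1) / (x₁ - 1)) / x₁ ^ (n + L)) := by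
      rw [← geom_sum_eq h1.ne', Finset.sum_div, Finset.mul_sum]
      refine Finset.sum_congr rfl fun j _ => ?_
      ring
    rw [e1]
    have h2 : ((x₁ ^ (n + L - r') - 1) / (x₁ - 1)) / x₁ ^ (n + L) ≤ (1 / (x₁ - 1)) * (1 / x₁ ^ r) := by
      have h3 : x₁ ^ (n + L) = x₁ ^ (n + L - r') * x₁ ^ r' := by
        rw [← pow_add]
        congr 1
        omega
      have h4 : x₁ ^ r ≤ x₁ ^ r' := pow_le_pow_right₀ h1.le hr'
      have h5 : 0 < x₁ ^ (n + L - r') := by positivity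
      have h6 : 0 < x₁ ^ r' := by positivity
      have h7 : 0 < x₁ ^ r := by positivity
      calc ((x₁ ^ (n + L - r') - 1) / (x₁ - 1)) / x₁ ^ (n + L) ≤ (x₁ ^ (n + L - r') / (x₁ - 1)) / x₁ ^ (n + L) := by
            gcongr
            linarith
        _ = (1 / (x₁ - 1)) * (1 / x₁ ^ r') := by
            rw [h3]
            field_simp
        _ ≤ _ := by
            have := one_div_le_one_div_of_le h7 h4
            exact mul_le_mul_of_nonneg_left this (by positivity)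
    have h3 : 1 / (x₁ - 1) ≤ p := by
      have h4 : 1 / (x₁ - 1) ≤ x₁ / (x₁ - 1) := div_le_div_of_nonneg_right h1.le hx1.le
      have h5 : (K : ℝ) ≤ p := by
        have : K ≤ 2 ^ K := Nat.lt_two_pow_self.le
        rw [hp]
        exact_mod_cast this
      exact h4.trans (P.hC.trans h5)
    have h4 : 1 / x₁ ^ r ≤ 1 / p ^ 12 := one_div_le_one_div_of_le (by positivity) hrp
    have h5 : (2 : ℝ) ^ K' ≤ 2 * p := by
      calc (2 : ℝ) ^ K' ≤ 2 ^ (K + 1) := pow_le_pow_right₀ (by norm_num) hK'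
        _ = 2 * p := by rw [pow_succ, hp]; ring
    have h6 : 0 ≤ 1 / (x₁ - 1) := by positivity
    have h7 : 0 ≤ 1 / x₁ ^ r := by positivity
    have h8 : 0 ≤ ((x₁ ^ (n + L - r') - 1) / (x₁ - 1)) / x₁ ^ (n + L) := by
      have : 1 ≤ x₁ ^ (n + L - r') := one_le_pow₀ h1.le
      have : 0 ≤ x₁ ^ (n + L - r') - 1 := by linarith
      positivity
    calc 2 ^ K' * (4 * B) * (((x₁ ^ (n + L - r') - 1) / (x₁ - 1)) / x₁ ^ (n + L)) ≤
          (2 * p) * (4 * B) * (p * (1 / p ^ 12)) := by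
          have h9 : ((x₁ ^ (n + L - r') - 1) / (x₁ - 1)) / x₁ ^ (n + L) ≤ p * (1 / p ^ 12) :=
            h2.trans (mul_le_mul h3 h4 h7 hp0.le)
          gcongr
      _ = _ := by
          field_simp
          ring
  have hsum2 : ∑ _j ∈ Finset.range (n + L - r'), (1 : ℝ) ≤ 2 * B / p ^ 34 := by
    rw [Finset.sum_const, Finset.card_range, nsmul_eq_mul, mul_one]
    have h2 : ((n + L - r' : ℕ) : ℝ) ≤ p ^ 2 := by
      have h3 : ((n + L - r' : ℕ) : ℝ) ≤ ((n + L : ℕ) : ℝ) := by exact_mod_cast Nat.sub_le _ _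
      push_cast at h3
      have h4 : (0 : ℝ) ≤ r := by positivity
      linarith
    have h3 : p ^ 36 ≤ 2 * B := hLp.trans (hyL.trans hyB)
    rw [le_div_iff₀ (by positivity)]
    calc ((n + L - r' : ℕ) : ℝ) * p ^ 34 ≤ p ^ 2 * p ^ 34 := mul_le_mul_of_nonneg_right h2 (by positivity)
      _ = p ^ 36 := by ring
      _ ≤ _ := h3
  have hfin : 8 * B / p ^ 10 + 2 * B / p ^ 34 ≤ (1 / 2) ^ (4 * K + 2) * B := by
    have e1 : ((1 : ℝ) / 2) ^ (4 * K + 2) = 1 / (4 * p ^ 4) := by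
      have e2 : (2 : ℝ) ^ (4 * K + 2) = 4 * p ^ 4 := by
        rw [pow_add, hp, ← pow_mul, mul_comm K 4]
        norm_num
        ring
      rw [one_div_pow, e2]
    rw [e1]
    have h2 : (8 : ℝ) / p ^ 10 ≤ 1 / (8 * p ^ 4) := by
      rw [div_le_div_iff₀ (by positivity) (by positivity)]
      have h3 : (64 : ℝ) ≤ p ^ 6 := by
        calc (64 : ℝ) = 2 ^ 6 := by norm_num
          _ ≤ p ^ 6 := pow_le_pow_left₀ (by norm_num) hp2 6
      have h4 : 64 * p ^ 4 ≤ p ^ 6 * p ^ 4 := mul_le_mul_of_nonneg_right h3 (by positivity)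
      calc 8 * (8 * p ^ 4) = 64 * p ^ 4 := by ring
        _ ≤ p ^ 6 * p ^ 4 := h4
        _ = 1 * p ^ 10 := by ring
    have h5 : (2 : ℝ) / p ^ 34 ≤ 1 / (8 * p ^ 4) := by
      rw [div_le_div_iff₀ (by positivity) (by positivity)]
      have h3 : (16 : ℝ) ≤ p ^ 30 := by
        calc (16 : ℝ) ≤ 2 ^ 30 := by norm_num
          _ ≤ p ^ 30 := pow_le_pow_left₀ (by norm_num) hp2 30
      have h4 : 16 * p ^ 4 ≤ p ^ 30 * p ^ 4 := mul_le_mul_of_nonneg_right h3 (by positivity)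
      calc 2 * (8 * p ^ 4) = 16 * p ^ 4 := by ring
        _ ≤ p ^ 30 * p ^ 4 := h4
        _ = 1 * p ^ 34 := by ring
    calc 8 * B / p ^ 10 + 2 * B / p ^ 34 = (8 / p ^ 10 + 2 / p ^ 34) * B := by ring
      _ ≤ (1 / (8 * p ^ 4) + 1 / (8 * p ^ 4)) * B := by gcongr
      _ = _ := by
          field_simp
          ring
  linarith

end Pool.Agent.Helper8.LD2
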